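import Pool.Agent.N206.CG.Af

set_option autoImplicit false

/-!
Project CG: many normal subgroups of the affine groups, few invariant ones.
-/

namespace Pool.Agent.N681.CG

open Pool.Agent.N206.CG Pool.Agent.N206.CG.Af

section

variable {R : Type} [CommRing R]

theorem tr_apply (t x : EE R) : tr t x = t + x := by
  rw [tr, act_apply]
  exact congrArg (fun z => t + z) (pa_one x)

theorem tr_add (s t : EE R) : tr s * tr t = tr (s + t) := by
  apply Equiv.ext
  intro x
  rw [Equiv.Perm.mul_apply, tr_apply, tr_apply, tr_apply, add_assoc]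

theorem tr_zero : tr (0 : EE R) = 1 := by
  apply Equiv.ext
  intro x
  rw [tr_apply, zero_add]
  rfl

theorem tr_neg (t : EE R) : (tr t)⁻¹ = tr (-t) := by
  rw [inv_eq_iff_mul_eq_one, tr_add, add_neg_cancel, tr_zero]

theorem tr_inj {s t : EE R} (h : tr s = tr t) : s = t := by
  have h1 := congrArg (fun g : Equiv.Perm (EE R) => g 0) h
  simpa [tr_apply] using h1

theorem act_tr (g : Aff R) (t : EE R) : act g * tr t * (act g)⁻¹ = tr (pa g.a t) := by
  rw [mul_inv_eq_iff_eq_mul]
  apply Equiv.ext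
  intro x
  rw [Equiv.Perm.mul_apply, Equiv.Perm.mul_apply, act_apply, tr_apply, tr_apply, act_apply, pa_add]
  abel

theorem sw_tr (t : EE R) : sw R * tr t * (sw R)⁻¹ = tr (sw R t) := by
  rw [mul_inv_eq_iff_eq_mul]
  apply Equiv.ext
  intro x
  rw [Equiv.Perm.mul_apply, Equiv.Perm.mul_apply, tr_apply, tr_apply]
  rfl

/-- the group of translations with columns in `W` -/
def NW (W : AddSubgroup (Fin 2 → R)) : Subgroup (Equiv.Perm (EE R)) where
  carrier := {g | ∃ t : EE R, (∀ i, (fun k => t.1 k i) ∈ W) ∧ g = tr t}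
  one_mem' := ⟨0, fun _ => W.zero_mem, tr_zero.symm⟩
  mul_mem' := by
    rintro _ _ ⟨s, hs, rfl⟩ ⟨t, ht, rfl⟩
    exact ⟨s + t, fun i => W.add_mem (hs i) (ht i), tr_add s t⟩
  inv_mem' := by
    rintro _ ⟨s, hs, rfl⟩
    exact ⟨-s, fun i => W.neg_mem (hs i), tr_neg s⟩

theorem mem_NW {W : AddSubgroup (Fin 2 → R)} {g : Equiv.Perm (EE R)} :
    g ∈ NW W ↔ ∃ t : EE R, (∀ i, (fun k => t.1 k i) ∈ W) ∧ g = tr t := Iff.rfl

theorem NW_le (W : AddSubgroup (Fin 2 → R)) : NW W ≤ PP R := by
  rintro _ ⟨t, ht, rfl⟩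
  exact ⟨⟨1, t⟩, rfl⟩

theorem NW_conj (W : AddSubgroup (Fin 2 → R)) : ∀ g ∈ PP R, ∀ r ∈ NW W, g * r * g⁻¹ ∈ NW W := by
  rintro _ ⟨g, rfl⟩ _ ⟨t, ht, rfl⟩
  exact ⟨pa g.a t, fun i => ht _, act_tr g t⟩

/-- the vector with column `w` at position zero and `-w` at position four -/
def vv (w : Fin 2 → R) : EE R := ⟨fun k => ![w k, 0, 0, 0, -w k], by
  intro k
  simp [Fin.sum_univ_succ]⟩

theorem vv_mem {W : AddSubgroup (Fin 2 → R)} {w : Fin 2 → R} (hw : w ∈ W) (i : Fin 5) :
    (fun k => (vv w).1 k i) ∈ W := by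
  fin_cases i
  · exact hw
  · exact W.zero_mem
  · exact W.zero_mem
  · exact W.zero_mem
  · exact W.neg_mem hw

theorem mem_of_vv {W : AddSubgroup (Fin 2 → R)} {w : Fin 2 → R} (h : tr (vv w) ∈ NW W) : w ∈ W := by
  obtain ⟨t, ht, h1⟩ := h
  have h2 := tr_inj h1
  have h3 := ht 0
  rw [← h2] at h3
  exact h3

theorem vv_iff {W : AddSubgroup (Fin 2 → R)} {w : Fin 2 → R} : tr (vv w) ∈ NW W ↔ w ∈ W :=
  ⟨mem_of_vv, fun h => ⟨_, vv_mem h, rfl⟩⟩

theorem NW_inj : Function.Injective (NW (R := R)) := by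
  intro W W' h
  ext w
  rw [← vv_iff, h, vv_iff]

theorem NW_bot : NW (⊥ : AddSubgroup (Fin 2 → R)) = ⊥ := by
  rw [eq_bot_iff]
  rintro _ ⟨t, ht, rfl⟩
  have : t = 0 := by
    apply Subtype.ext
    funext k i
    exact congrFun (AddSubgroup.mem_bot.1 (ht i)) k
  rw [this, tr_zero]
  exact Subgroup.one_mem _

/-- the line of slope `c` -/
def WL (c : R) : AddSubgroup (Fin 2 → R) where
  carrier := {w | w 1 = c * w 0}
  zero_mem' := by simp
  add_mem' := by
    intro a b ha hb
    have ha' : a 1 = c * a 0 := ha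
    have hb' : b 1 = c * b 0 := hb
    change (a + b) 1 = c * (a + b) 0
    rw [Pi.add_apply, Pi.add_apply, ha', hb', mul_add]
  neg_mem' := by
    intro a ha
    have ha' : a 1 = c * a 0 := ha
    change (-a) 1 = c * (-a) 0
    rw [Pi.neg_apply, Pi.neg_apply, ha', mul_neg]

theorem mem_WL {c : R} {w : Fin 2 → R} : w ∈ WL c ↔ w 1 = c * w 0 := Iff.rfl

theorem one_mem_WL (c : R) : ![1, c] ∈ WL c := by
  rw [mem_WL]; simp

theorem WL_inj : Function.Injective (WL (R := R)) := by
  intro c c' h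
  have h1 := one_mem_WL c
  rw [h, mem_WL] at h1
  simpa using h1

end

theorem t_F4m : S_F4m := by
  intro p hp h1000
  have : Fact p.Prime := ⟨hp⟩
  refine ⟨Set.range fun c : ZMod p => NW (WL c), Set.finite_range _, ?_, ?_⟩
  · have hinj : Function.Injective fun c : ZMod p => NW (WL c) := fun a b h => WL_inj (NW_inj h)
    rw [← Set.image_univ, Set.ncard_image_of_injective _ hinj, Set.ncard_univ, Nat.card_zmod]
  · rintro _ ⟨c, rfl⟩
    refine ⟨NW_le _, ?_, NW_conj _⟩
    intro h
    rw [← NW_bot] at h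
    have h1 := NW_inj h
    have h2 := one_mem_WL c
    rw [h1, AddSubgroup.mem_bot] at h2
    have h3 := congrFun h2 0
    simp at h3

theorem t_F4f (h : S_F4) : S_F4f := by
  intro p hp h1000
  have : Fact p.Prime := ⟨hp⟩
  have : NeZero p := ⟨hp.ne_zero⟩
  have hF : ({PP (ZMod p), NW ⊤, NW (WL 1), NW (WL (-1))} :
      Set (Subgroup (Equiv.Perm (EE (ZMod p))))).ncard ≤ 4 := by
    refine (Set.ncard_insert_le _ _).trans ?_
    have h2 := Set.ncard_insert_le (NW (⊤ : AddSubgroup (Fin 2 → ZMod p)))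
      {NW (WL (1 : ZMod p)), NW (WL (-1 : ZMod p))}
    have h3 := Set.ncard_insert_le (NW (WL (1 : ZMod p))) {NW (WL (-1 : ZMod p))}
    have h4 := Set.ncard_singleton (NW (WL (-1 : ZMod p)))
    omega
  refine ⟨{PP (ZMod p), NW ⊤, NW (WL 1), NW (WL (-1))}, Set.toFinite _, hF, ?_⟩
  intro N hN hb hc hs
  rcases h p hp h1000 N hN hc with h1 | ⟨W, hW⟩
  · rw [h1]; exact Set.mem_insert _ _
  have hNW : N = NW W := by
    ext g
    rw [hW g, mem_NW]
  subst hNW
  have hsw : ∀ w : Fin 2 → ZMod p, w ∈ W → ![w 1, w 0] ∈ W := by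
    intro w hw
    have h2 := hs _ (vv_iff.2 hw)
    rw [sw_tr] at h2
    have h3 : sw (ZMod p) (vv w) = vv ![w 1, w 0] := by
      apply Subtype.ext
      funext k i
      fin_cases k
      · rfl
      · rfl
    rw [h3] at h2
    exact vv_iff.1 h2
  have hsm : ∀ (c : ZMod p) (w : Fin 2 → ZMod p), w ∈ W → c • w ∈ W := by
    intro c w hw
    have h2 : c • w = c.val • w := by
      funext k
      rw [Pi.smul_apply, Pi.smul_apply, smul_eq_mul, nsmul_eq_mul, ZMod.natCast_zmod_val]
    rw [h2]
    exact W.nsmul_mem hw _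
  have h2ne : (2 : ZMod p) ≠ 0 := by
    intro h2
    have h3 : ((2 : ℕ) : ZMod p) = 0 := by exact_mod_cast h2
    rw [ZMod.natCast_eq_zero_iff] at h3
    have := Nat.le_of_dvd (by norm_num) h3
    omega
  have hplus : (∃ w ∈ W, w 0 + w 1 ≠ 0) → ![1, 1] ∈ W := by
    rintro ⟨w, hw, hne⟩
    have h3 := hsm (w 0 + w 1)⁻¹ _ (W.add_mem hw (hsw w hw))
    have h4 : (w 0 + w 1)⁻¹ • (w + ![w 1, w 0]) = ![1, 1] := by
      funext k
      fin_cases k
      · change (w 0 + w 1)⁻¹ * (w 0 + w 1) = 1
        exact inv_mul_cancel₀ hne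
      · change (w 0 + w 1)⁻¹ * (w 1 + w 0) = 1
        rw [add_comm (w 1)]
        exact inv_mul_cancel₀ hne
    rwa [h4] at h3
  have hminus : (∃ w ∈ W, w 0 - w 1 ≠ 0) → ![1, -1] ∈ W := by
    rintro ⟨w, hw, hne⟩
    have h3 := hsm (w 0 - w 1)⁻¹ _ (W.sub_mem hw (hsw w hw))
    have h4 : (w 0 - w 1)⁻¹ • (w - ![w 1, w 0]) = ![1, -1] := by
      funext k
      fin_cases k
      · change (w 0 - w 1)⁻¹ * (w 0 - w 1) = 1
        exact inv_mul_cancel₀ hne
      · change (w 0 - w 1)⁻¹ * (w 1 - w 0) = -1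
        rw [← neg_sub (w 0) (w 1), mul_neg, inv_mul_cancel₀ hne]
    rwa [h4] at h3
  by_cases hA : ∃ w ∈ W, w 0 + w 1 ≠ 0
  · have h11 := hplus hA
    by_cases hB : ∃ w ∈ W, w 0 - w 1 ≠ 0
    · have h12 := hminus hB
      have : W = ⊤ := by
        rw [eq_top_iff]
        intro w _
        have h3 := W.add_mem (hsm ((w 0 + w 1) / 2) _ h11) (hsm ((w 0 - w 1) / 2) _ h12)
        have h4 : ((w 0 + w 1) / 2) • ![(1 : ZMod p), 1] + ((w 0 - w 1) / 2) • ![(1 : ZMod p), -1] = w := by
          funext k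
          fin_cases k
          · change (w 0 + w 1) / 2 * 1 + (w 0 - w 1) / 2 * 1 = w 0
            field_simp
            ring
          · change (w 0 + w 1) / 2 * 1 + (w 0 - w 1) / 2 * (-1) = w 1
            field_simp
            ring
        rwa [h4] at h3
      rw [this]
      right; left; rfl
    · push Not at hB
      have : W = WL 1 := by
        ext w
        rw [mem_WL]
        constructor
        · intro hw
          rw [one_mul]
          exact (sub_eq_zero.1 (hB w hw)).symm
        · intro hw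
          have h4 : w = (w 0) • ![(1 : ZMod p), 1] := by
            funext k
            fin_cases k
            · change w 0 = w 0 * 1
              rw [mul_one]
            · change w 1 = w 0 * 1
              rw [hw]; ring
          rw [h4]
          exact hsm _ _ h11
      rw [this]
      right; right; left; rfl
  · push Not at hA
    by_cases hB : ∃ w ∈ W, w 0 - w 1 ≠ 0
    · have h12 := hminus hB
      have : W = WL (-1) := by
        ext w
        rw [mem_WL]
        constructor
        · intro hw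
          have := hA w hw
          rw [neg_one_mul]
          exact eq_neg_of_add_eq_zero_right this
        · intro hw
          have h4 : w = (w 0) • ![(1 : ZMod p), -1] := by
            funext k
            fin_cases k
            · change w 0 = w 0 * 1
              rw [mul_one]
            · change w 1 = w 0 * (-1)
              rw [hw]; ring
          rw [h4]
          exact hsm _ _ h12
      rw [this]
      right; right; right; rfl
    · push Not at hB
      exfalso
      apply hb
      rw [← NW_bot]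
      congr 1
      rw [eq_bot_iff]
      intro w hw
      have h3 := hA w hw
      have h4 := hB w hw
      have h5 : 2 * w 0 = 0 := by linear_combination h3 + h4
      have h6 : w 0 = 0 := (mul_eq_zero.1 h5).resolve_left h2ne
      have h7 : w 1 = 0 := by rw [h6, zero_add] at h3; exact h3
      rw [AddSubgroup.mem_bot]
      funext k
      fin_cases k
      · exact h6
      · exact h7

end Pool.Agent.N681.CG
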